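import Mathlib
import Pool.Agent.N440.FO.Gen2

/-!
# Furstenberg's orbit closure conjecture for numbers with random digits at sparse places

Let `a ≥ 2` and `x = y + ∑ ε_n / a ^ (n + 1)`, where `y` is any real number and the digits `ε_n` are
random integers, bounded by a constant. Almost surely the orbit of `x` modulo one is dense for the
multiplication by EVERY integer `b ≥ 2` that is not divisible by all prime factors of `a` (for
instance all `b` coprime to `a`), hence `O_b(x) = [0,1]` and Furstenberg's inequality holds, in each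
of the two following cases:

1. (dependent digits) there are `δ_n ≥ 0` with `∑ δ_n = ∞` such that the conditional probability of
any value of the `n`-th digit, given any values of finitely many other digits, earlier or later, is
at most `1 - δ_n`;
2. (independent digits) the digits are independent and the law of `x` has no atoms.

No invariance, entropy or dimension is assumed: the `δ_n` may vanish outside of an arbitrarily sparse
infinite set of places `n`, at which only the digits are random. The closure of the orbit under the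
multiplication by `a` may then be countable, and this is the case about which the theorem of
Shmerkin and Wu gives no information.
-/

set_option autoImplicit false

open MeasureTheory ProbabilityTheory Set

namespace Pool.Agent.Results.MP_c9a594_an.RandomDigits

/-- the closure of the orbit of `r` modulo one under multiplication by `m` -/
def O (m : ℕ) (r : ℝ) : Set ℝ := closure (range fun n : ℕ => Int.fract ((m : ℝ) ^ n * r))

/-- For every `b ≥ 2` that is not divisible by all prime factors of `a`, the orbit of `r` under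
multiplication by `b` is dense modulo one, and Furstenberg's inequality holds for `a` and `b`. -/
def Good (a : ℕ) (r : ℝ) : Prop :=
  ∀ b : ℕ, 2 ≤ b → (∃ p : ℕ, p.Prime ∧ p ∣ a ∧ ¬ p ∣ b) →
    O b r = Icc 0 1 ∧ dimH (O b r) = 1 ∧ 1 ≤ dimH (O a r) + dimH (O b r)

/-- the number with the digits `ε 0, ε 1, …` in base `a`, translated by `y` -/
noncomputable def num {Ω : Type*} (a : ℕ) (ε : ℕ → Ω → ℤ) (y : ℝ) (ω : Ω) : ℝ :=
  y + ∑' n, (ε n ω : ℝ) / (a : ℝ) ^ (n + 1)

/-- the event that the digits at the places of `F` are those of `u` -/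
def cyl {Ω : Type*} (ε : ℕ → Ω → ℤ) (F : Finset ℕ) (u : ℕ → ℤ) : Set Ω :=
  {ω | ∀ m ∈ F, ε m ω = u m}

/-- the conditional probability of any value of the digit `n`, given any values of finitely many
other digits, is at most `1 - δ n` -/
def CondBound {Ω : Type*} [MeasurableSpace Ω] (μ : Measure Ω) (ε : ℕ → Ω → ℤ) (δ : ℕ → ℝ) : Prop :=
  ∀ (n : ℕ) (F : Finset ℕ) (u : ℕ → ℤ), n ∉ F →
    μ.real (cyl ε (insert n F) u) ≤ (1 - δ n) * μ.real (cyl ε F u)

theorem good_of_dense {a : ℕ} {r : ℝ}
    (h : ∀ b : ℕ, 2 ≤ b → (∃ p : ℕ, p.Prime ∧ p ∣ a ∧ ¬ p ∣ b) →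
      Dense (range fun n : ℕ => b ^ n • ((r : ℝ) : AddCircle (1 : ℝ)))) : Good a r := by
  intro b hb hp
  have h1 : O b r = Icc 0 1 := Pool.Agent.W765.Det.closure_fract (h b hb hp)
  have h2 : dimH (O b r) = 1 := by
    rw [h1]
    have h3 : (interior (Icc (0 : ℝ) 1)).Nonempty := by
      rw [interior_Icc]; exact ⟨1 / 2, by norm_num, by norm_num⟩
    rw [Real.dimH_of_nonempty_interior h3]
    simp
  refine ⟨h1, h2, ?_⟩
  rw [h2]
  exact le_add_self

/-- **Numbers with random digits at sparse places.** -/
theorem result (a : ℕ) (ha : 2 ≤ a) {Ω : Type*} [MeasurableSpace Ω] (μ : Measure Ω)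
    [IsProbabilityMeasure μ] (ε : ℕ → Ω → ℤ) (hε : ∀ n, Measurable (ε n)) (M : ℤ)
    (hM : ∀ n ω, |ε n ω| ≤ M) (y : ℝ) :
    ((∃ δ : ℕ → ℝ, (∀ n, 0 ≤ δ n) ∧ ¬ Summable δ ∧ CondBound μ ε δ) →
      ∀ᵐ ω ∂μ, Good a (num a ε y ω)) ∧
    (iIndepFun ε μ → (∀ t : ℝ, μ {ω | num a ε y ω = t} = 0) →
      ∀ᵐ ω ∂μ, Good a (num a ε y ω)) := by
  refine ⟨?_, ?_⟩
  · rintro ⟨δ, h0, hns, hc⟩
    filter_upwards [Pool.Agent.N440.FO.dense_ae' (μ := μ) ha hε hM (y := y) hc h0 hns] with ω hω
    exact good_of_dense hω
  · intro hind hat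
    obtain ⟨δ, hc, h0, hns⟩ := Pool.Agent.N440.FO.cond_of_indep (μ := μ) ha hε hind hM (y := y) hat
    filter_upwards [Pool.Agent.N440.FO.dense_ae' (μ := μ) ha hε hM (y := y) hc h0 hns] with ω hω
    exact good_of_dense hω

end Pool.Agent.Results.MP_c9a594_an.RandomDigits
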