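import Mathlib
import Pool.Agent.N440.FO.Example

/-!
# Furstenberg's orbit closure conjecture, all bases: random digits along sparse long progressions

Let `a ≥ 2` and `x = y + ∑ ε_n / a ^ (n + 1)`, where `y` is any real number and the digits `ε_n` are
independent random integers, bounded by a constant.

1. Suppose that, for some `δ > 0` and for every `K`, there is a progression of some difference `q` and
of length `K ^ q` such that no digit at a place of this progression takes a value with probability
more than `1 - δ`. (Nothing is assumed at the other places, where the digits may be constant.) Then,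
almost surely, for ALL `b ≥ 2` multiplicatively independent of `a`, the orbit of `x` modulo one is
dense for the multiplication by `b`, so that `O_b(x) = [0,1]` and Furstenberg's inequality holds.
2. For every `a ≥ 2` there is an irrational number `x` in `[0,1)` such that `O_a(x)` is countable and
`O_b(x) = [0,1]` for ALL `b ≥ 2` multiplicatively independent of `a`.

The result of the file RandomDigits did not cover the `b` divisible by all prime factors of `a`, for
instance `a = 2` and `b = 6`. For them `b ^ α = a ^ β g`, where `p` does not divide `g`, for some prime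
factor `p` of `a`; the points `b ^ (α τ) x` modulo one depend only on the digits after the place `β τ`,
so that different times see different digits. The second moments of the exponential sums along
times in a progression are estimated as follows. The characteristic function of a nondegenerate digit
is bounded by a trigonometric polynomial with values in `[0,1]` and a mean less than one, which does
not depend on the law of the digit; the average of the products of these polynomials at the points
`g ^ τ / a ^ j` is computed exactly, by p-adic interpolation of the powers of `g` (lifting the exponent).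
-/

set_option autoImplicit false

open MeasureTheory ProbabilityTheory Set

namespace Pool.Agent.Results.MP_c9a594_an.RandomProgressions

universe u

/-- the closure of the orbit of `r` modulo one under multiplication by `m` -/
def O (m : ℕ) (r : ℝ) : Set ℝ := closure (range fun n : ℕ => Int.fract ((m : ℝ) ^ n * r))

/-- multiplicative independence -/
def MulIndep (a b : ℕ) : Prop := ∀ k l : ℕ, 0 < k → 0 < l → a ^ k ≠ b ^ l

/-- the number with the digits `ε 0, ε 1, …` in base `a`, translated by `y` -/
noncomputable def num {Ω : Type u} (a : ℕ) (ε : ℕ → Ω → ℤ) (y : ℝ) (ω : Ω) : ℝ :=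
  y + ∑' n, (ε n ω : ℝ) / (a : ℝ) ^ (n + 1)

/-- For every `K` there is a progression, of some difference `q` and of length more than `K ^ q`, such
that every digit at a place of the progression takes every value with probability at most `1 - δ`. -/
def LongProgressions {Ω : Type u} [MeasurableSpace Ω] (μ : Measure Ω) (ε : ℕ → Ω → ℤ) (δ : ℝ) :
    Prop :=
  ∀ K : ℕ, ∃ q n₀ : ℕ, 0 < q ∧ ∀ i ≤ K ^ q, ∀ u : ℤ, μ.real {ω | ε (n₀ + q * i) ω = u} ≤ 1 - δ

theorem O_fract (m : ℕ) (r : ℝ) : O m (Int.fract r) = O m r := by
  unfold O
  congr 1
  congr 1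
  funext n
  have h1 : (m : ℝ) ^ n * Int.fract r = (m : ℝ) ^ n * r - (((m : ℤ) ^ n * ⌊r⌋ : ℤ) : ℝ) := by
    rw [Int.fract]; push_cast; ring
  rw [h1, Int.fract_sub_intCast]

theorem dimH_Icc : dimH (Icc (0 : ℝ) 1) = 1 := by
  have h3 : (interior (Icc (0 : ℝ) 1)).Nonempty := by
    rw [interior_Icc]; exact ⟨1 / 2, by norm_num, by norm_num⟩
  rw [Real.dimH_of_nonempty_interior h3]
  simp

theorem mulIndep_succ {a : ℕ} (ha : 2 ≤ a) : MulIndep a (a + 1) := by
  intro k l hk _ h
  have h1 : Nat.Coprime (a ^ k) ((a + 1) ^ l) := Nat.Coprime.pow _ _ (by simp)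
  rw [← h, Nat.coprime_self] at h1
  have h2 : a ^ 1 ≤ a ^ k := Nat.pow_le_pow_right (by omega) hk
  rw [pow_one] at h2
  omega

/-- **Random digits along sparse long progressions, all bases.** -/
theorem result (a : ℕ) (ha : 2 ≤ a) :
    (∀ (Ω : Type u) [MeasurableSpace Ω] (μ : Measure Ω) [IsProbabilityMeasure μ] (ε : ℕ → Ω → ℤ)
      (M : ℤ) (y δ : ℝ), (∀ n, Measurable (ε n)) → (∀ n ω, |ε n ω| ≤ M) → iIndepFun ε μ → 0 < δ →
      LongProgressions μ ε δ →
      ∀ᵐ ω ∂μ, ∀ b : ℕ, 2 ≤ b → MulIndep a b →
        O b (num a ε y ω) = Icc 0 1 ∧ dimH (O b (num a ε y ω)) = 1 ∧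
          1 ≤ dimH (O a (num a ε y ω)) + dimH (O b (num a ε y ω))) ∧
    (∃ x : ℝ, Irrational x ∧ 0 ≤ x ∧ x < 1 ∧ (O a x).Countable ∧ dimH (O a x) = 0 ∧
      ∀ b : ℕ, 2 ≤ b → MulIndep a b → O b x = Icc 0 1) := by
  refine ⟨?_, ?_⟩
  · intro Ω _ μ _ ε M y δ hε hM hind hδ hprog
    filter_upwards [Pool.Agent.N440.FO.dense_all (μ := μ) ha hε hind hM y hδ hprog] with ω hω b hb hab
    have h1 : O b (num a ε y ω) = Icc 0 1 := Pool.Agent.W765.Det.closure_fract (hω b hb hab)
    refine ⟨h1, by rw [h1]; exact dimH_Icc, ?_⟩
    rw [h1, dimH_Icc]
    exact le_add_self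
  · obtain ⟨r, hcount, hdense⟩ := Pool.Agent.N440.FO.exists_num ha
    have h1 : ∀ b : ℕ, 2 ≤ b → MulIndep a b → O b (Int.fract r) = Icc 0 1 := by
      intro b hb hab
      rw [O_fract]
      exact Pool.Agent.W765.Det.closure_fract (hdense b hb hab)
    have h2 : (O a (Int.fract r)).Countable := by
      rw [O_fract]
      exact Pool.Agent.N440.FO.countable_fract hcount
    refine ⟨Int.fract r, ?_, Int.fract_nonneg r, Int.fract_lt_one r, h2, dimH_countable h2, h1⟩
    exact Pool.Agent.N440.FO.irrational_of_orbit (h1 (a + 1) (by omega) (mulIndep_succ ha))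

end Pool.Agent.Results.MP_c9a594_an.RandomProgressions
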