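import Pool.Agent.N639.VP.F3
import Pool.Agent.R501.FR3

/-!
# Furstenberg's conjecture for numbers with runs of digits of stretched exponential length

Let `a, b ≥ 2` be coprime. A real number `x` has a dense orbit under the multiplication by `b` modulo one, which is
moreover equidistributed along a subsequence, and satisfies Furstenberg's inequality, if for every `k` there is `n ≥ k`
such that `x` is at a distance of at most `exp(-exp(k n^(2/3)))` from a fraction with the denominator `a ^ n m`, where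
`m ≤ exp(n^(2/3)/100)`; for instance, if its expansion in base `a` contains, for infinitely many `n`, a run of zeros
from the place `n` to the place `exp(ω n^(2/3))`, `ω → ∞`. The orbit closure under the multiplication by `a` may then be
countable. The starting result `PeriodicRuns` needs runs up to the place `a ^ (ρ n)`, `ρ > 0` fixed.

Proof. With `X = b ^ (D φ(a²) a ^ s) - 1`, which is divisible by `a ^ s`, the points
`b ^ (n₀ + D φ(a²) a ^ s t) c / (a ^ n m)` are, modulo one, the values of a polynomial in `t` of degree `K`, about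
`n / s`. Korobov's version of Vinogradov's method is used for a composite base `a`, with a periodic part `m` of the
denominator: the sum is averaged over the shifts `x y`, `x, y ≤ M = a ^ (4 s)`, the bilinear sums are estimated with the
double Hölder inequality and Vinogradov's mean value theorem with `K² λ` variables, and the coefficients of the shifted
polynomial of the orders `K/7 ≤ j ≤ K/4` are fractions with reduced denominators between `2 ^ (K s / 2)` and
`K! a ^ (n - j s)` (lifting the exponent). This is nontrivial for `s = R K²`, that is `s` about `n^(2/3)`, and saves an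
arbitrary constant if `R` is large.
-/

set_option autoImplicit false

open Finset Filter Topology

namespace Pool.Agent.Results.MP_c9a594_an.StretchedExponentialRuns

/-- the closure of the orbit of `x` under `x ↦ b x mod 1` -/
def orb (b : ℕ) (x : ℝ) : Set ℝ := closure (Set.range fun n : ℕ => Int.fract ((b : ℝ) ^ n * x))

/-- The expansion of `1 / m` in base `b` is periodic with a preperiod `n₀ ≤ ν` and a (not necessarily minimal) period
`D ≤ ν`: the integer `m` divides `b ^ n₀ (b ^ D - 1)`. -/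
def Per (b m : ℕ) (ν : ℝ) : Prop := ∃ n₀ D : ℕ, 1 ≤ D ∧ (n₀ : ℝ) ≤ ν ∧ (D : ℝ) ≤ ν ∧ m ∣ b ^ n₀ * (b ^ D - 1)

/-- the exponential sum over the first `N` points of the orbit of `x` under the multiplication by `b` -/
noncomputable def expSum (b h N : ℕ) (x : ℝ) : ℂ :=
  ∑ i ∈ range N, Complex.exp (2 * Real.pi * ((h : ℝ) * ((b : ℝ) ^ i * x) : ℝ) * Complex.I)

/-- Let `a, b ≥ 2` be coprime.

(1) For all `κ > 0` and `H` there is `C` such that for every large `n`, all integers `c` which are not divisible by `a`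
and all `m ≥ 1` with `Per b m (exp(n^(2/3)/100))` the exponential sums, of all frequencies `1 ≤ h ≤ H`, over the first
`N` points of the orbit of the fraction `c / (a ^ n m)` under the multiplication by `b` are at most `κ N`, for ALL
`N ≥ exp(C n^(2/3))`.

(2) For every `ε > 0` there is `C` such that for every large `n` and all such `c` and `m` the first points of this
orbit, up to the index `exp(C n^(2/3))`, are `ε`-dense modulo one.

(3) Let `x` be a real number. If for every `k` there are `n ≥ k`, an integer `c` which is not divisible by `a` and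
`m ≥ 1` with `Per b m (exp(n^(2/3)/100))` such that `|x - c / (a ^ n m)| ≤ exp(-exp(k n^(2/3)))`, then the orbit of `x`
under the multiplication by `b` is dense in `[0, 1]`, the sum of the Hausdorff dimensions of the orbit closures of `x`
under the multiplications by `a'` and by `b` is at least one, for all integers `a'` (in particular for `a' = a`), and
the orbit is equidistributed modulo one along some sequence `N_j → ∞` of numbers of points.

(4) All the integers `m` with `1 ≤ m ≤ exp(n^(2/3)/100)` satisfy `Per b m (exp(n^(2/3)/100))`. -/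
theorem result {a b : ℕ} (ha : 2 ≤ a) (hb : 2 ≤ b) (hab : Nat.Coprime a b) :
    (∀ κ : ℝ, 0 < κ → ∀ H : ℕ, ∃ (C : ℝ) (N₀ : ℕ), ∀ n : ℕ, N₀ ≤ n → ∀ (c : ℤ) (m : ℕ), ¬ (a : ℤ) ∣ c → 1 ≤ m →
      Per b m (Real.exp ((n : ℝ) ^ ((2 : ℝ) / 3) / 100)) →
        ∀ N : ℕ, Real.exp (C * (n : ℝ) ^ ((2 : ℝ) / 3)) ≤ N → ∀ h : ℕ, 1 ≤ h → h ≤ H →
          ‖expSum b h N (c / ((a : ℝ) ^ n * m))‖ ≤ κ * N) ∧
    (∀ ε : ℝ, 0 < ε → ∃ (C : ℝ) (N₀ : ℕ), ∀ n : ℕ, N₀ ≤ n → ∀ (c : ℤ) (m : ℕ), ¬ (a : ℤ) ∣ c → 1 ≤ m →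
      Per b m (Real.exp ((n : ℝ) ^ ((2 : ℝ) / 3) / 100)) →
        ∀ y : ℝ, ∃ i : ℕ, (i : ℝ) ≤ Real.exp (C * (n : ℝ) ^ ((2 : ℝ) / 3)) ∧
          ∃ z : ℤ, |(b : ℝ) ^ i * (c / ((a : ℝ) ^ n * m)) - y - z| < ε) ∧
    (∀ x : ℝ, (∀ k : ℕ, ∃ n : ℕ, k ≤ n ∧ ∃ (c : ℤ) (m : ℕ), ¬ (a : ℤ) ∣ c ∧ 1 ≤ m ∧
        Per b m (Real.exp ((n : ℝ) ^ ((2 : ℝ) / 3) / 100)) ∧
        |x - c / ((a : ℝ) ^ n * m)| ≤ Real.exp (-Real.exp (k * (n : ℝ) ^ ((2 : ℝ) / 3)))) →
      orb b x = Set.Icc 0 1 ∧ (∀ a' : ℕ, 1 ≤ dimH (orb a' x) + dimH (orb b x)) ∧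
        ∃ N : ℕ → ℕ, Tendsto N atTop atTop ∧
          ∀ h : ℕ, 1 ≤ h → Tendsto (fun j => expSum b h (N j) x / (N j : ℂ)) atTop (𝓝 0)) ∧
    ∀ n m : ℕ, 1 ≤ m → (m : ℝ) ≤ Real.exp ((n : ℝ) ^ ((2 : ℝ) / 3) / 100) →
      Per b m (Real.exp ((n : ℝ) ^ ((2 : ℝ) / 3) / 100)) := by
  have hcast : ∀ n m : ℕ, ((a ^ n * m : ℕ) : ℝ) = (a : ℝ) ^ n * m := fun n m => by push_cast; ring
  have hE : ∀ (h N : ℕ) (x : ℝ), expSum b h N x =
      ∑ i ∈ range N, Pool.Agent.H332R2.Lit.e ((h : ℝ) * ((b : ℝ) ^ i * x)) := fun h N x => rfl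
  refine ⟨fun κ hκ H => ?_, fun ε hε => ?_, fun x hx => ?_, fun n m hm hmn => ?_⟩
  · obtain ⟨C, N₀, -, h⟩ := Pool.Agent.N639.VP.sums_full ha hb hab κ hκ H
    refine ⟨C, N₀, fun n hn c m hc hm hper N hN h' hh hhH => ?_⟩
    obtain ⟨n₀, D, hD, hn₀, hDle, hdvd⟩ := hper
    have h3 := h n hn c m n₀ D hc hm hD hn₀ hDle hdvd N hN h' hh hhH
    rw [hcast] at h3
    rw [hE]
    exact h3
  · obtain ⟨C, N₀, -, h⟩ := Pool.Agent.N639.VP.dense_short ha hb hab ε hε
    refine ⟨C, N₀, fun n hn c m hc hm hper y => ?_⟩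
    obtain ⟨n₀, D, hD, hn₀, hDle, hdvd⟩ := hper
    have h3 := h n hn c m n₀ D hc hm hD hn₀ hDle hdvd y
    rw [hcast] at h3
    exact h3
  · have hx' : ∀ k : ℕ, ∃ n : ℕ, k ≤ n ∧ ∃ (c : ℤ) (m n₀ D : ℕ), ¬ (a : ℤ) ∣ c ∧ 1 ≤ m ∧ 1 ≤ D ∧
        (n₀ : ℝ) ≤ Real.exp ((n : ℝ) ^ ((2 : ℝ) / 3) / 100) ∧ (D : ℝ) ≤ Real.exp ((n : ℝ) ^ ((2 : ℝ) / 3) / 100) ∧
        m ∣ b ^ n₀ * (b ^ D - 1) ∧
        |x - c / ((a ^ n * m : ℕ) : ℝ)| ≤ Real.exp (-Real.exp (k * (n : ℝ) ^ ((2 : ℝ) / 3))) := by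
      intro k
      obtain ⟨n, hn, c, m, hc, hm, ⟨n₀, D, hD, hn₀, hDle, hdvd⟩, hclose⟩ := hx k
      refine ⟨n, hn, c, m, n₀, D, hc, hm, hD, hn₀, hDle, hdvd, ?_⟩
      rw [hcast]
      exact hclose
    have h3 : Pool.Agent.Y943.Fu.orb b x = Set.Icc 0 1 := Pool.Agent.N639.VP.dense_orbit ha hb hab x hx'
    have h4 : dimH (orb b x) = 1 := Pool.Agent.Y943.Fu.dimH_orb h3
    refine ⟨h3, fun a' => ?_, ?_⟩
    · rw [h4]
      exact le_add_self
    · obtain ⟨N, hN, h5⟩ := Pool.Agent.N639.VP.equi_seq ha hb hab x hx'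
      exact ⟨N, hN, fun h hh => h5 h hh⟩
  · obtain ⟨n₀, D, hD, hn₀, hDle, hdvd⟩ := Pool.Agent.R501.FR.period b (by omega) m hm
    exact ⟨n₀, D, hD, le_trans (by exact_mod_cast hn₀) hmn, le_trans (by exact_mod_cast hDle) hmn, hdvd⟩

end Pool.Agent.Results.MP_c9a594_an.StretchedExponentialRuns
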